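import Pool.Agent.helper69.AD.GS2

/-!
Module GM7: translates accumulate only at the endpoints.
-/

open scoped MatrixGroups LinearAlgebra.Projectivization
open Matrix UpperHalfPlane

namespace AdSBend

noncomputable section

theorem GM7_peq_smul (g h : SL(2, ℝ)) (hgh : PEq g h) (z : Bd) : g • z = h • z := by
  rcases hgh with rfl | rfl
  · rfl
  · induction z using Projectivization.ind with
    | h v hv =>
      rw [Projectivization.smul_mk, Projectivization.smul_mk, Projectivization.mk_eq_mk_iff']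
      refine ⟨-1, ?_⟩
      ext i
      simp [Matrix.SpecialLinearGroup.smul_def]

theorem GM7 (h2 : BD2_stmt) (h7 : BD7_stmt) (h8 : BD8_stmt) : GM7_stmt := by
  intro g p a b hg ha hb
  obtain ⟨F, t, hF, ht, hgF⟩ := (h8.1 g p).1 hg
  obtain ⟨hfr, hinj, hninf, hz, hcyc, hinfc, hDm, hDmf, hall⟩ := h7
  obtain ⟨s, hs, rfl⟩ := ((hfr F p a hF).2).1 ha
  obtain ⟨u, hu, rfl⟩ := ((hfr F p b hF).2).1 hb
  obtain ⟨hF1, hF2⟩ := hF
  have act1 : ∀ c : ℝ, g • (F • bPt c) = F • bPt (Real.exp t * c) := by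
    intro c
    rw [GM7_peq_smul _ _ hgF, mul_smul, mul_smul, inv_smul_smul, hDm]
  have act2 : ∀ c : ℝ, g⁻¹ • (F • bPt c) = F • bPt (Real.exp (-t) * c) := by
    intro c
    rw [inv_smul_eq_iff, act1]
    congr 2
    rw [← mul_assoc, ← Real.exp_add]; simp
  have act1n : ∀ (n : ℕ) (c : ℝ), g ^ n • (F • bPt c) = F • bPt (Real.exp t ^ n * c) := by
    intro n
    induction n with
    | zero => intro c; simp
    | succ n ih =>
      intro c
      rw [pow_succ, mul_smul, act1, ih, pow_succ, mul_assoc]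
  have act2n : ∀ (n : ℕ) (c : ℝ), (g⁻¹) ^ n • (F • bPt c) = F • bPt (Real.exp (-t) ^ n * c) := by
    intro n
    induction n with
    | zero => intro c; simp
    | succ n ih =>
      intro c
      rw [pow_succ, mul_smul, act2, ih, pow_succ, mul_assoc]
  have hp2 : p.2 = F • bPt 0 := by rw [hz, hF2]
  have cyc0 : ∀ x y : ℝ, 0 < x → x < y → Cyc p.2 (F • bPt x) (F • bPt y) := by
    intro x y hx hxy
    rw [hp2, h2, hcyc]
    exact Or.inl ⟨hx, hxy⟩
  have cyc0' : ∀ x y : ℝ, 0 < x → 0 < y → Cyc p.2 (F • bPt x) (F • bPt y) → x < y := by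
    intro x y hx hy h
    rw [hp2, h2, hcyc] at h
    rcases h with h | h | h
    · exact h.2
    · linarith [h.1, h.2]
    · linarith [h.1, h.2]
  have het : 1 < Real.exp t := by
    have := Real.add_one_lt_exp (ne_of_gt ht)
    linarith
  refine ⟨?_, ?_, ?_, ?_⟩
  · obtain ⟨n, hn⟩ := pow_unbounded_of_one_lt (u / s) het
    refine ⟨n, ?_⟩
    rw [act1n]
    apply cyc0 _ _ hu
    rwa [div_lt_iff₀ hs] at hn
  · obtain ⟨n, hn⟩ := exists_pow_lt_of_lt_one (show 0 < u / s from div_pos hu hs)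
      (show Real.exp (-t) < 1 by rw [Real.exp_neg]; exact inv_lt_one_of_one_lt₀ het)
    refine ⟨n, ?_⟩
    rw [act2n]
    apply cyc0
    · positivity
    · rwa [lt_div_iff₀ hs] at hn
  · intro h
    have h' := cyc0' _ _ hs hu h
    rw [act1, act1]
    apply cyc0
    · positivity
    · exact mul_lt_mul_of_pos_left h' (Real.exp_pos t)
  · rw [act1, (hfr F p _ ⟨hF1, hF2⟩).2]
    exact ⟨_, by positivity, rfl⟩

end

end AdSBend
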