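import Pool.Agent.helper69.AD.GS2

/-!
Module PM3: equivariance of plaque maps and the new representation.
-/

open scoped MatrixGroups LinearAlgebra.Projectivization
open Matrix UpperHalfPlane

namespace AdSBend

noncomputable section

theorem PM3_peq_smul (g h : SL(2, ℝ)) (hgh : PEq g h) (z : ℍ) : g • z = h • z := by
  rcases hgh with rfl | rfl
  · rfl
  · have := UpperHalfPlane.neg_smul (g := (h : GL (Fin 2) ℝ)) (z := z)
    show ((-h : SL(2, ℝ)) : GL (Fin 2) ℝ) • z = (h : GL (Fin 2) ℝ) • z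
    rw [← this]
    congr 1
    ext i j
    simp

theorem PM3 (h5 : PN5_stmt) (h6 : PN6_stmt) : PM3_stmt := by
  intro Γ hΓ S E A r hr hA hE
  have key : ∀ γ ∈ Γ, ∀ z z', S.OffPt z → S.OffPt z' →
      A (γ • z) * r γ * (A z)⁻¹ = A (γ • z') * r γ * (A z')⁻¹ := by
    intro γ hγ z z' hz hz'
    have hch := (h6 Γ hΓ S).1 z z' hz hz'
    obtain ⟨-, -, hoff, hsame, hacr, -, -⟩ := h5 Γ S
    induction hch with
    | refl => rfl
    | tail hab hbc ih =>
      rename_i b c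
      obtain ⟨hb, hc, hs | ⟨p, hp⟩⟩ := hbc
      · rw [ih hb, hA.1 b c hb hc hs,
          hA.1 (γ • b) (γ • c) (hoff γ hγ b hb) (hoff γ hγ c hc) (hsame γ hγ b c hs)]
      · rw [ih hb, hA.2 b c p hb hc hp,
          hA.2 (γ • b) (γ • c) _ (hoff γ hγ b hb) (hoff γ hγ c hc) (hacr γ hγ p b c hp),
          hE γ hγ p hp.1]
        group
  refine ⟨key, ?_⟩
  intro z hz γ hγ δ hδ ε hε hpe
  have hoff := (h5 Γ S).2.2.1
  have h1 := key γ hγ z (δ • z) hz (hoff δ hδ z hz)
  have h2 : ε • z = γ • δ • z := by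
    rw [PM3_peq_smul _ _ hpe z, mul_smul]
  show PEq (A (ε • z) * r ε * (A z)⁻¹) ((A (γ • z) * r γ * (A z)⁻¹) * (A (δ • z) * r δ * (A z)⁻¹))
  rw [h1, h2]
  have h3 := hr γ hγ δ hδ ε hε hpe
  rcases h3 with h3 | h3
  · left
    rw [h3]; group
  · right
    rw [h3]
    simp only [mul_neg, neg_mul]
    congr 1
    group

end

end AdSBend
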