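import Pool.Agent.helper69.AD.GS6

/-!
Module XE9: left earthquakes move the ideal points in the positive direction.
-/

open scoped MatrixGroups LinearAlgebra.Projectivization
open Matrix UpperHalfPlane
open Pool.Agent.helper73.AD (PS Arc Word sg AData Family PreFamily Cone bs)

namespace AdSBend

noncomputable section

open LeafSystem

/-- the jump of a left earthquake moves the points behind the leaf forward -/
theorem XE9_T (BD2 : BD2_stmt) (BD6 : BD6_stmt) (BD7 : BD7_stmt) (TW1 : TW1_stmt)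
    (g : SL(2, ℝ)) (P : Bd × Bd) (ω : ℝ) (hω : 0 ≤ ω) (hg : Attracts g P) (x : Bd)
    (hx : Cyc P.1 x P.2) :
    ¬ Cyc P.1 (twS g (-ω) • x) x ∧ twS g (-ω) • P.1 = P.1 ∧ twS g (-ω) • P.2 = P.2 := by
  obtain ⟨F, hF⟩ := BD6.1 P hg.1
  obtain ⟨hT, -, -⟩ := TW1.1 g F P (-ω) hg hF
  obtain ⟨t, ht, rfl⟩ := ((BD7.1 F P x hF).1).1 hx
  obtain ⟨-, -, -, -, -, h6, h7, h8, -⟩ := BD7
  have e1 : twS g (-ω) • (F • bPt t) = F • bPt (Real.exp (-ω) * t) := by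
    rw [hT, mul_smul, mul_smul, inv_smul_smul, h7]
  have e2 : twS g (-ω) • P.1 = P.1 := by
    rw [hT, ← hF.1, mul_smul, mul_smul, inv_smul_smul, (h8 _).1]
  have e3 : twS g (-ω) • P.2 = P.2 := by
    rw [hT, ← hF.2, mul_smul, mul_smul, inv_smul_smul, (h8 _).2]
  refine ⟨?_, e2, e3⟩
  rw [e1, ← hF.1, BD2, h6]
  have : Real.exp (-ω) ≤ 1 := Real.exp_le_one_iff.mpr (by linarith)
  intro h
  nlinarith

/-- the displaced boundary map is monotone -/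
theorem XE9_mono (BD2 : BD2_stmt) (g : SL(2, ℝ)) (f' : Bd ≃ Bd)
    (hf' : ∀ x y z, Cyc x y z → Cyc (f' x) (f' y) (f' z)) (x y z : Bd) (h : Cyc x y z) :
    Cyc (g⁻¹ • f' x) (g⁻¹ • f' y) (g⁻¹ • f' z) :=
  (BD2 g⁻¹ _ _ _).2 (hf' x y z h)

/-- ideal points visible from somewhere move forward -/
theorem XE9_vis (BD2 : BD2_stmt) (BD3 : BD3_stmt) (BD4 : BD4_stmt) (BD6 : BD6_stmt)
    (BD7 : BD7_stmt) (BD11 : BD11_stmt) (BD12 : BD12_stmt) (TW1 : TW1_stmt) (GM1 : GM1_stmt)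
    (GM5 : GM5_stmt) (PN3 : PN3_stmt) (PN4 : PN4_stmt) (XE3 : XE3_stmt)
    (Γ : Subgroup SL(2, ℝ)) (hΓ : IsClosedSurfaceGroup Γ) (S : LeafSystem Γ)
    (ω : Bd × Bd → ℝ) (f f' : Bd ≃ Bd) (r r' : SL(2, ℝ) → SL(2, ℝ)) (B : ℍ → SL(2, ℝ))
    (hr : IsConjBy Γ f r) (hr' : IsConjBy Γ f' r') (hB : S.IsQuake ω f f' r B)
    (hω : ∀ p ∈ S.L, 0 ≤ ω p) (n : ℕ) :
    ∀ (z z' : ℍ) (c : Bd) (p : Bd × Bd), p ∈ S.L → S.OffPt z → S.OffPt z' → S.Near p z →
      Behind p c → S.Vis z' c → {q : Bd × Bd | q ∈ S.L ∧ SepPts q.1 q.2 z z'}.ncard ≤ n →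
      ¬ Cyc (f p.1) ((B z)⁻¹ • f' c) (f c) := by
  induction n with
  | zero =>
    intro z z' c p hp hz hz' hnear hc hvis hcard
    exfalso
    have hfin := (GM5 Γ hΓ S).1 z z'
    rw [Nat.le_zero, Set.ncard_eq_zero hfin] at hcard
    have h1 : side z p.1 p.2 < 0 := hnear.2.1
    have h2 : 0 < side z' p.1 p.2 := by
      have h3 := hvis p hp
      have h4 := hz' p hp
      by_contra h5
      exact h3 (Or.inr ⟨lt_of_le_of_ne (not_lt.mp h5) h4, hc⟩)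
    have : p ∈ {q : Bd × Bd | q ∈ S.L ∧ SepPts q.1 q.2 z z'} :=
      ⟨hp, mul_neg_of_neg_of_pos h1 h2⟩
    rw [hcard] at this
    exact this
  | succ n ih =>
    intro z z' c p hp hz hz' hnear hc hvis hcard
    have hfin := (GM5 Γ hΓ S).1 z z'
    have h1 : side z p.1 p.2 < 0 := hnear.2.1
    have h2 : 0 < side z' p.1 p.2 := by
      have h3 := hvis p hp
      have h4 := hz' p hp
      by_contra h5
      exact h3 (Or.inr ⟨lt_of_le_of_ne (not_lt.mp h5) h4, hc⟩)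
    have hpm : p ∈ {q : Bd × Bd | q ∈ S.L ∧ SepPts q.1 q.2 z z'} :=
      ⟨hp, mul_neg_of_neg_of_pos h1 h2⟩
    have hps : sw p ∈ S.L := S.swap p hp
    obtain ⟨z'', hnear''⟩ := (PN3 Γ hΓ S (sw p) hps).1
    have hz'' : S.OffPt z'' := hnear''.1
    have hacr : S.Across p z z'' := (PN3 Γ hΓ S p hp).2.1 z z'' hnear hnear''
    have h3 : 0 < side z'' p.1 p.2 := hacr.2.2.1
    -- the counting
    have hsub : {q : Bd × Bd | q ∈ S.L ∧ SepPts q.1 q.2 z'' z'} ⊂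
        {q : Bd × Bd | q ∈ S.L ∧ SepPts q.1 q.2 z z'} := by
      have hnp : ¬ SepPts p.1 p.2 z'' z' := by
        intro h
        have : 0 < side z'' p.1 p.2 * side z' p.1 p.2 := mul_pos h3 h2
        unfold SepPts at h
        linarith
      refine ⟨?_, fun h => ?_⟩
      · rintro q ⟨hq, hq2⟩
        refine ⟨hq, ?_⟩
        by_contra hq3
        have hqz : side z q.1 q.2 ≠ 0 := hz q hq
        have hqz' : side z' q.1 q.2 ≠ 0 := hz' q hq
        have hqz'' : side z'' q.1 q.2 ≠ 0 := hz'' q hq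
        have h5 : SepPts q.1 q.2 z z'' := by
          unfold SepPts at hq2 hq3 ⊢
          rcases lt_or_gt_of_ne hqz with ha | ha <;> rcases lt_or_gt_of_ne hqz' with hb | hb <;>
            rcases lt_or_gt_of_ne hqz'' with hd | hd <;>
            first | exact mul_neg_of_neg_of_pos ha hd | exact mul_neg_of_pos_of_neg ha hd | skip
          · exact absurd hq2 (not_lt.mpr (mul_pos_of_neg_of_neg hd hb).le)
          · exact absurd (mul_neg_of_neg_of_pos ha hb) hq3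
          · exact absurd (mul_neg_of_pos_of_neg ha hb) hq3
          · exact absurd hq2 (not_lt.mpr (mul_pos hd hb).le)
        rcases hacr.2.2.2 q hq h5 with rfl | rfl
        · exact hnp hq2
        · apply hnp
          unfold SepPts at hq2 ⊢
          simp only [] at hq2
          have e : ∀ w : ℍ, side w p.2 p.1 = - side w p.1 p.2 := by
            intro w
            unfold side dt
            ring
          rw [e, e] at hq2
          linarith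
      · exact hnp (h hpm).2
    have hcard'' : {q : Bd × Bd | q ∈ S.L ∧ SepPts q.1 q.2 z'' z'}.ncard ≤ n := by
      have := Set.ncard_lt_ncard hsub hfin
      omega
    -- the jump
    have hjump : B z'' = B z * twS (r (gen Γ p)) (-ω p) := hB.1.2 z z'' p hz hz'' hacr
    have hAt : Attracts (r (gen Γ p)) (f p.1, f p.2) := by
      have hg := GM1 Γ hΓ p (S.closed p hp)
      exact (BD11 Γ f r hr).2.2.2.2.1 _ hg.1 p hg.2.1
    have hcyc := (BD11 Γ f r hr).1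
    have hE : (B z)⁻¹ • f' c = twS (r (gen Γ p)) (-ω p) • ((B z'')⁻¹ • f' c) := by
      rw [hjump, _root_.mul_inv_rev, mul_smul, smul_inv_smul]
    -- key: the point for z'' lies between f c and f p.2
    have hkey : ¬ Cyc (f p.1) ((B z'')⁻¹ • f' c) (f c) ∧
        Cyc (f p.1) ((B z'')⁻¹ • f' c) (f p.2) := by
      by_cases hv : S.Vis z'' c
      · have : B z'' • f c = f' c := hB.2 z'' hz'' c hv
        rw [← this, inv_smul_smul]
        exact ⟨fun h => (BD4.1 _ _ _ h).2.1 rfl, (hcyc _ _ _).2 hc⟩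
      · obtain ⟨p'', hp'', hn'', hb''⟩ := ((XE3 Γ hΓ S z'' hz'').1 c).1 hv
        have hI := ih z'' z' c p'' hp'' hz'' hz' hn'' hb'' hvis hcard''
        -- position of p''
        have hins : Inside p'' p := by
          rcases (PN4 Γ hΓ S (sw p) hps p'' hp'' z'' hnear'').1 hn'' with h | h
          · exfalso
            rw [h] at hb''
            exact BD4.2.2.1 _ _ _ hb'' (BD4.2.1 _ _ _ (BD4.2.1 _ _ _ hc))
          · have hF : Facing p'' (sw p) := (BD12.1 (sw p) p'').1 h.2.2.1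
            exact (BD12.2.1 p'' (sw p)).1 hF
        have hv1 := (XE3 Γ hΓ S z'' hz'').2.2 p'' hp'' hn''
        have e1 : (B z'')⁻¹ • f' p''.1 = f p''.1 := by
          rw [← hB.2 z'' hz'' _ hv1.1, inv_smul_smul]
        have e2 : (B z'')⁻¹ • f' p''.2 = f p''.2 := by
          rw [← hB.2 z'' hz'' _ hv1.2, inv_smul_smul]
        have hm := XE9_mono BD2 (B z'') f' hr'.1 _ _ _ hb''
        rw [e1, e2] at hm
        have g1 : Cyc (f p.1) (f p''.1) (f p''.2) := (hcyc _ _ _).2 hins.1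
        have g2 : Cyc (f p.1) (f p''.2) (f p.2) := (hcyc _ _ _).2 hins.2
        have g3 : Cyc (f p''.1) (f c) (f p''.2) := (hcyc _ _ _).2 hb''
        have g4 : Cyc (f p.1) (f c) (f p.2) := (hcyc _ _ _).2 hc
        have n1 : f p''.1 ≠ f p.1 := fun h => (BD4.1 _ _ _ g1).1 h.symm
        have n2 : f p''.2 ≠ f p.1 := fun h => (BD4.1 _ _ _ g1).2.2 h
        have n3 : f p.2 ≠ f p.1 := fun h => (BD4.1 _ _ _ g2).2.2 h
        have n4 : f c ≠ f p.1 := fun h => (BD4.1 _ _ _ g4).1 h.symm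
        have n5 : (B z'')⁻¹ • f' c ≠ f p.1 := by
          intro h
          rw [h] at hm
          exact BD4.2.2.1 _ _ _ (BD4.2.1 _ _ _ g1) hm |>.elim
        obtain ⟨φ, -, -, q3, q4, -⟩ := BD3 (f p.1)
        rw [q3 _ _ n1 n2] at g1
        rw [q3 _ _ n2 n3] at g2
        rw [q4 _ _ _ n1 n4 n2] at g3
        rw [q4 _ _ _ n1 n5 n2] at hm
        rw [q4 _ _ _ n1 n5 n4] at hI
        rw [q3 _ _ n5 n4, q3 _ _ n5 n3]
        have g3' : φ (f p''.1) < φ (f c) ∧ φ (f c) < φ (f p''.2) := by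
          rcases g3 with h | h | h
          · exact h
          · linarith [h.1, h.2]
          · linarith [h.1, h.2]
        have hm' : φ (f p''.1) < φ ((B z'')⁻¹ • f' c) ∧ φ ((B z'')⁻¹ • f' c) < φ (f p''.2) := by
          rcases hm with h | h | h
          · exact h
          · linarith [h.1, h.2]
          · linarith [h.1, h.2]
        refine ⟨fun h => hI (Or.inl ⟨hm'.1, h⟩), by linarith [hm'.2]⟩
    -- the jump moves it forward
    obtain ⟨t1, t2, t3⟩ := XE9_T BD2 BD6 BD7 TW1 (r (gen Γ p)) (f p.1, f p.2) (ω p) (hω p hp) hAt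
      _ hkey.2
    simp only [] at t1 t2 t3
    rw [hE]
    have m4 : Cyc (f p.1) (f c) (f p.2) := (hcyc _ _ _).2 hc
    have n3 : f p.2 ≠ f p.1 := fun h => (BD4.1 _ _ _ m4).2.2 h
    have n4 : f c ≠ f p.1 := fun h => (BD4.1 _ _ _ m4).1 h.symm
    have n5 : (B z'')⁻¹ • f' c ≠ f p.1 := fun h => (BD4.1 _ _ _ hkey.2).1 h.symm
    have n6 : twS (r (gen Γ p)) (-ω p) • ((B z'')⁻¹ • f' c) ≠ f p.1 := by
      intro h
      apply n5
      have : twS (r (gen Γ p)) (-ω p) • ((B z'')⁻¹ • f' c) =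
          twS (r (gen Γ p)) (-ω p) • f p.1 := by rw [h, t2]
      exact MulAction.injective _ this
    obtain ⟨φ, -, -, q3, -, -⟩ := BD3 (f p.1)
    obtain ⟨k1, k2⟩ := hkey
    rw [q3 _ _ n5 n4] at k1
    rw [q3 _ _ n6 n5] at t1
    rw [q3 _ _ n6 n4]
    intro h
    exact k1 (lt_of_le_of_lt (not_lt.mp t1) h)

/-- all ideal points behind a near leaf move forward -/
theorem XE9_all (BD2 : BD2_stmt) (BD3 : BD3_stmt) (BD4 : BD4_stmt) (BD6 : BD6_stmt)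
    (BD7 : BD7_stmt) (BD8 : BD8_stmt) (BD11 : BD11_stmt) (BD12 : BD12_stmt) (TW1 : TW1_stmt)
    (GM1 : GM1_stmt)
    (GM5 : GM5_stmt) (PN3 : PN3_stmt) (PN4 : PN4_stmt) (XE3 : XE3_stmt) (XE7 : XE7_stmt)
    (Γ : Subgroup SL(2, ℝ)) (hΓ : IsClosedSurfaceGroup Γ) (S : LeafSystem Γ)
    (ω : Bd × Bd → ℝ) (f f' : Bd ≃ Bd) (r r' : SL(2, ℝ) → SL(2, ℝ)) (B : ℍ → SL(2, ℝ))
    (hr : IsConjBy Γ f r) (hr' : IsConjBy Γ f' r') (hB : S.IsQuake ω f f' r B)
    (hω : ∀ p ∈ S.L, 0 ≤ ω p) (z : ℍ) (c : Bd) (p : Bd × Bd) (hp : p ∈ S.L) (hz : S.OffPt z)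
    (hnear : S.Near p z) (hc : Behind p c) :
      ¬ Cyc (f p.1) ((B z)⁻¹ • f' c) (f c) := by
  intro hcon
  have hcyc := (BD11 Γ f r hr).1
  have hv1 := (XE3 Γ hΓ S z hz).2.2 p hp hnear
  have e1 : (B z)⁻¹ • f' p.1 = f p.1 := by
    rw [← hB.2 z hz _ hv1.1, inv_smul_smul]
  have e2 : (B z)⁻¹ • f' p.2 = f p.2 := by
    rw [← hB.2 z hz _ hv1.2, inv_smul_smul]
  have hA : S.IsPlaqueMap (fun p => twS (r (gen Γ p)) ((fun _ => (0 : ℝ)) p)) (fun _ => 1) := by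
    refine ⟨fun _ _ _ _ _ => rfl, fun z z' q _ _ hq => ?_⟩
    have hg := GM1 Γ hΓ q (S.closed q hq.1)
    have hAt : Attracts (r (gen Γ q)) (f q.1, f q.2) :=
      (BD11 Γ f r hr).2.2.2.2.1 _ hg.1 q hg.2.1
    have h2 : 2 < |trc (r (gen Γ q))| := (BD8.2.2.2.1 _).2 ⟨_, hAt⟩
    simp only [one_mul]
    exact ((TW1.2.2.1 (r (gen Γ q)) 0 0 h2).2.2.2.2.2.1).symm
  have hne : (B z)⁻¹ • f' c ≠ f c := (BD4.1 _ _ _ hcon).2.1
  obtain ⟨w, d, hw, hd, hcyd⟩ := XE7 Γ hΓ S f r (fun _ => 0) (fun _ => 1) hr hA _ _ hne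
  simp only [one_smul] at hcyd
  have g4 : Cyc (f p.1) (f c) (f p.2) := (hcyc _ _ _).2 hc
  have n3 : f p.2 ≠ f p.1 := fun h => (BD4.1 _ _ _ g4).2.2 h
  have n4 : f c ≠ f p.1 := fun h => (BD4.1 _ _ _ g4).1 h.symm
  have n5 : (B z)⁻¹ • f' c ≠ f p.1 := fun h => (BD4.1 _ _ _ hcon).1 h.symm
  obtain ⟨φ, -, -, q3, q4, q5⟩ := BD3 (f p.1)
  have k1 := (q3 _ _ n5 n4).1 hcon
  have n6 : f d ≠ f p.1 := by
    intro h
    rw [h] at hcyd
    exact BD4.2.2.1 _ _ _ hcon (BD4.2.1 _ _ _ hcyd)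
  have k2 : φ ((B z)⁻¹ • f' c) < φ (f d) ∧ φ (f d) < φ (f c) := by
    rcases (q4 _ _ _ n5 n6 n4).1 hcyd with h | h | h
    · exact h
    · linarith [h.1, h.2]
    · linarith [h.1, h.2]
  have k4 := (q3 _ _ n4 n3).1 g4
  -- d is behind p and before c
  have hd1 : Behind p d := (hcyc _ _ _).1 ((q3 _ _ n6 n3).2 (by linarith [k2.2]))
  have hd2 : Cyc p.1 d c := (hcyc _ _ _).1 ((q3 _ _ n6 n4).2 k2.2)
  have h5 := XE9_vis BD2 BD3 BD4 BD6 BD7 BD11 BD12 TW1 GM1 GM5 PN3 PN4 XE3 Γ hΓ S ω f f' r r' B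
    hr hr' hB hω _ z w d p hp hz hw hnear hd1 hd le_rfl
  have h6 := XE9_mono BD2 (B z) f' hr'.1 _ _ _ hd2
  rw [e1] at h6
  have n7 : (B z)⁻¹ • f' d ≠ f p.1 := fun h => (BD4.1 _ _ _ h6).1 h.symm
  rw [q3 _ _ n7 n6] at h5
  rw [q3 _ _ n7 n5] at h6
  linarith [k2.1, not_lt.mp h5]

theorem XE9 (BD2 : BD2_stmt) (BD3 : BD3_stmt) (BD4 : BD4_stmt) (BD6 : BD6_stmt)
    (BD7 : BD7_stmt) (BD8 : BD8_stmt) (BD11 : BD11_stmt) (BD12 : BD12_stmt) (TW1 : TW1_stmt)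
    (GM1 : GM1_stmt) (GM5 : GM5_stmt) (PN3 : PN3_stmt) (PN4 : PN4_stmt) (XE3 : XE3_stmt)
    (XE7 : XE7_stmt) : XE9_stmt := by
  intro Γ hΓ S ω f f' r r' B hr hr' hB hω z hz c c₀ hc₀ hcon
  have hcyc := (BD11 Γ f r hr).1
  by_cases hv : S.Vis z c
  · have : B z • f c = f' c := hB.2 z hz c hv
    rw [← this, inv_smul_smul] at hcon
    exact (BD4.1 _ _ _ hcon).1 rfl
  · obtain ⟨p, hp, hnear, hc⟩ := ((XE3 Γ hΓ S z hz).1 c).1 hv
    have h1 := XE9_all BD2 BD3 BD4 BD6 BD7 BD8 BD11 BD12 TW1 GM1 GM5 PN3 PN4 XE3 XE7 Γ hΓ S ω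
      f f' r r' B hr hr' hB hω z c p hp hz hnear hc
    have hv1 := (XE3 Γ hΓ S z hz).2.2 p hp hnear
    have e1 : (B z)⁻¹ • f' p.1 = f p.1 := by
      rw [← hB.2 z hz _ hv1.1, inv_smul_smul]
    have e2 : (B z)⁻¹ • f' p.2 = f p.2 := by
      rw [← hB.2 z hz _ hv1.2, inv_smul_smul]
    have e0 : (B z)⁻¹ • f' c₀ = f c₀ := by
      rw [← hc₀, inv_smul_smul]
    have hm := XE9_mono BD2 (B z) f' hr'.1 _ _ _ hc
    rw [e1, e2] at hm
    have g4 : Cyc (f p.1) (f c) (f p.2) := (hcyc _ _ _).2 hc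
    have n3 : f p.2 ≠ f p.1 := fun h => (BD4.1 _ _ _ g4).2.2 h
    have n4 : f c ≠ f p.1 := fun h => (BD4.1 _ _ _ g4).1 h.symm
    have n5 : (B z)⁻¹ • f' c ≠ f p.1 := fun h => (BD4.1 _ _ _ hm).1 h.symm
    obtain ⟨φ, -, q2, q3, q4, q5⟩ := BD3 (f p.1)
    rw [q3 _ _ n5 n4] at h1
    have hne : (B z)⁻¹ • f' c ≠ f c := (BD4.1 _ _ _ hcon).1
    have h2 : φ (f c) < φ ((B z)⁻¹ • f' c) := by
      rcases lt_or_eq_of_le (not_lt.mp h1) with h | h
      · exact h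
      · exact absurd (q2 _ _ n4 n5 h).symm hne
    have n6 : f c₀ ≠ f p.1 := by
      intro h
      rw [h] at hcon
      have := (q5 ((B z)⁻¹ • f' c) (f c)).2.2.2.1.1 hcon
      rw [q3 _ _ n5 n4] at this
      exact h1 this
    have h3 : φ (f c) < φ (f c₀) ∧ φ (f c₀) < φ ((B z)⁻¹ • f' c) := by
      rcases (q4 _ _ _ n5 n4 n6).1 hcon with h | h | h
      · linarith [h.1, h.2]
      · exact h
      · linarith [h.1, h.2]
    have h4 : Cyc p.1 c c₀ := (hcyc _ _ _).1 ((q3 _ _ n4 n6).2 h3.1)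
    have h5 := XE9_mono BD2 (B z) f' hr'.1 _ _ _ h4
    rw [e1, e0, q3 _ _ n5 n6] at h5
    linarith [h3.2]

end

end AdSBend
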